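import Pool.Agent.Helper82.SG.St

set_option autoImplicit false

namespace Pool.Agent.Helper57.SG

open Finset Real MeasureTheory Pool.Agent.Helper77.Steiner Pool.Agent.Helper82.SG
open Pool.Agent.Helper18.GP (nlen NConn)
open scoped ENNReal

/-- a number with the residue `θ` among `W` consecutive ones -/
private theorem ex_mod {W θ a : ℕ} (hθ : θ < W) : ∃ m, a < m ∧ m ≤ a + W ∧ m % W = θ := by
  have hW : 0 < W := by omega
  have hr : (a + 1) % W < W := Nat.mod_lt _ hW
  have hδ : (θ + W - (a + 1) % W) % W < W := Nat.mod_lt _ hW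
  refine ⟨a + 1 + (θ + W - (a + 1) % W) % W, by omega, by omega, ?_⟩
  rw [Nat.add_mod, Nat.mod_mod, ← Nat.add_mod_right ((a + 1) % W + (θ + W - (a + 1) % W) % W) W]
  rw [Nat.add_mod_right, Nat.add_mod, Nat.mod_mod, Nat.mod_mod, ← Nat.add_mod]
  have h1 : (a + 1) + (θ + W - (a + 1) % W) = θ + W * ((a + 1) / W + 1) := by
    have h2 := Nat.div_add_mod (a + 1) W
    have h3 : W * ((a + 1) / W + 1) = W * ((a + 1) / W) + W := by ring
    rw [h3]
    omega
  rw [h1, Nat.add_mul_mod_self_left, Nat.mod_eq_of_lt hθ]

private theorem one_sub_ge {Δ : ℝ} (h0 : 0 ≤ Δ) (h1 : Δ ≤ 1 / 2) : exp (-2 * Δ) ≤ 1 - Δ := by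
  have h2 : 1 + 2 * Δ ≤ exp (2 * Δ) := by
    have := Real.add_one_le_exp (2 * Δ)
    linarith
  have h3 : exp (-2 * Δ) * exp (2 * Δ) = 1 := by
    rw [← Real.exp_add]
    simp
  have h4 : 0 < exp (-2 * Δ) := Real.exp_pos _
  have h5 : exp (-2 * Δ) * (1 + 2 * Δ) ≤ 1 := by
    have h6 := mul_le_mul_of_nonneg_left h2 h4.le
    rw [h3] at h6
    exact h6
  have h6 : 1 ≤ (1 - Δ) * (1 + 2 * Δ) := by nlinarith
  by_contra h7
  push Not at h7
  have h8 : (1 - Δ) * (1 + 2 * Δ) < exp (-2 * Δ) * (1 + 2 * Δ) :=
    mul_lt_mul_of_pos_right h7 (by linarith)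
  linarith

theorem hGEO : StGEO := by
  intro E _ A h n x par K U θ t cut top C
  obtain ⟨δ, hδ0, hδ⟩ := C.sc.pos
  have hpos : ∀ v, 0 < h v := fun v => hδ0.trans_le (hδ v)
  have hU : (0 : ℝ) < U := by exact_mod_cast C.hU
  have key : ∀ i, i ≤ n → top i ≤ i ∧ top (top i) = top i ∧ t (top i) ≤ t i ∧
      (∀ m, t (top i) < m → m ≤ t i → m % (K * U) ≠ θ) ∧
      h (x i) ≤ h (x (top i)) * exp (((t i : ℝ) - t (top i)) / U) ∧
      h (x (top i)) * exp (-2 * (((t i : ℝ) - t (top i)) / U)) ≤ h (x i) ∧
      dist (x i) (x (top i)) ≤ h (x (top i)) * (exp (((t i : ℝ) - t (top i)) / U) - 1) := by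
    intro i
    induction i using Nat.strong_induction_on with
    | _ i ih =>
      intro hi
      have triv : top i = i → top i ≤ i ∧ top (top i) = top i ∧ t (top i) ≤ t i ∧
          (∀ m, t (top i) < m → m ≤ t i → m % (K * U) ≠ θ) ∧
          h (x i) ≤ h (x (top i)) * exp (((t i : ℝ) - t (top i)) / U) ∧
          h (x (top i)) * exp (-2 * (((t i : ℝ) - t (top i)) / U)) ≤ h (x i) ∧
          dist (x i) (x (top i)) ≤ h (x (top i)) * (exp (((t i : ℝ) - t (top i)) / U) - 1) := by
        intro e
        rw [e, e]
        refine ⟨le_rfl, rfl, le_rfl, fun m a b => absurd (a.trans_le b) (lt_irrefl _), ?_, ?_, ?_⟩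
        · simp
        · simp
        · simp
      rcases Nat.eq_zero_or_pos i with h0 | h1
      · apply triv
        rw [h0]
        exact C.top0
      · by_cases hc : cut i
        · exact triv (C.top1 i h1 hi hc)
        · have hp := C.par_lt i h1 hi
          obtain ⟨q1, q2, q3, q4, q5, q6, q7⟩ := ih (par i) hp (by omega)
          have et := C.top2 i h1 hi hc
          have htl := C.t_le i h1 hi
          rw [et]
          set j := top (par i) with hj
          set H := h (x j) with hH
          have hHp : 0 < H := hpos _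
          set hp' := h (x (par i)) with hhp
          have hhpp : 0 < hp' := hpos _
          have hf := C.fine i h1 hi
          have hte := C.t_e i h1 hi
          set sp := ((t (par i) : ℝ) - t j) / U with hsp
          set si := ((t i : ℝ) - t j) / U with hsi
          set Δ := dist (x (par i)) (x i) / hp' with hΔ
          have hd : dist (x (par i)) (x i) = Δ * hp' := by
            rw [hΔ, div_mul_cancel₀ _ hhpp.ne']
          have hΔ0 : 0 ≤ Δ := div_nonneg dist_nonneg hhpp.le
          have hΔ1 : Δ ≤ 1 / 2 := by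
            rw [hΔ, div_le_iff₀ hhpp]
            linarith
          have hΔs : Δ ≤ si - sp := by
            have e1 : si - sp = ((t i : ℝ) - t (par i)) / U := by
              rw [hsi, hsp]
              ring
            rw [e1, hΔ, div_le_div_iff₀ hhpp hU]
            linarith
          have hsp0 : 0 ≤ sp := div_nonneg (by
            have : (t j : ℝ) ≤ t (par i) := by exact_mod_cast q3
            linarith) hU.le
          have hl1 := C.sc.lip (x i) (x (par i))
          have hl2 := C.sc.lip (x (par i)) (x i)
          rw [dist_comm] at hl1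
          rw [hd] at hl1 hl2
          have he1 : 1 + Δ ≤ exp Δ := by
            have := Real.add_one_le_exp Δ
            linarith
          have he2 := one_sub_ge hΔ0 hΔ1
          refine ⟨by omega, q2, by omega, ?_, ?_, ?_, ?_⟩
          · intro m m1 m2 m3
            rcases le_or_gt m (t (par i)) with m4 | m4
            · exact q4 m m1 m4 m3
            · exact hc ((C.cut_iff i).2 ⟨m, m4, m2, m3⟩)
          · calc h (x i) ≤ hp' * (1 + Δ) := by linarith
              _ ≤ hp' * exp Δ := mul_le_mul_of_nonneg_left he1 hhpp.le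
              _ ≤ (H * exp sp) * exp Δ := mul_le_mul_of_nonneg_right q5 (exp_pos _).le
              _ = H * exp (sp + Δ) := by rw [Real.exp_add]; ring
              _ ≤ H * exp si := mul_le_mul_of_nonneg_left (Real.exp_le_exp.2 (by linarith)) hHp.le
          · calc H * exp (-2 * si) ≤ H * exp (-2 * sp + -2 * Δ) :=
                  mul_le_mul_of_nonneg_left (Real.exp_le_exp.2 (by linarith)) hHp.le
              _ = H * exp (-2 * sp) * exp (-2 * Δ) := by rw [Real.exp_add]; ring
              _ ≤ hp' * exp (-2 * Δ) := mul_le_mul_of_nonneg_right q6 (exp_pos _).le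
              _ ≤ hp' * (1 - Δ) := mul_le_mul_of_nonneg_left he2 hhpp.le
              _ ≤ h (x i) := by linarith
          · have ht : dist (x i) (x j) ≤ Δ * hp' + dist (x (par i)) (x j) := by
              have := dist_triangle (x i) (x (par i)) (x j)
              rw [dist_comm (x i) (x (par i)), hd] at this
              exact this
            have e3 : Δ * hp' ≤ Δ * (H * exp sp) := mul_le_mul_of_nonneg_left q5 hΔ0
            have e4 : H * (exp sp * (1 + Δ)) ≤ H * exp si := by
              refine mul_le_mul_of_nonneg_left ?_ hHp.le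
              calc exp sp * (1 + Δ) ≤ exp sp * exp Δ := mul_le_mul_of_nonneg_left he1 (exp_pos _).le
                _ = exp (sp + Δ) := (Real.exp_add _ _).symm
                _ ≤ exp si := Real.exp_le_exp.2 (by linarith)
            calc dist (x i) (x j) ≤ Δ * hp' + dist (x (par i)) (x j) := ht
              _ ≤ Δ * (H * exp sp) + H * (exp sp - 1) := add_le_add e3 q7
              _ = H * (exp sp * (1 + Δ)) - H := by ring
              _ ≤ H * exp si - H := by linarith
              _ = H * (exp si - 1) := by ring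
  intro i hi
  obtain ⟨q1, q2, q3, q4, q5, q6, q7⟩ := key i hi
  have hH := hpos (x (top i))
  have hlt : t i < t (top i) + K * U := by
    by_contra hc
    push Not at hc
    obtain ⟨m, m1, m2, m3⟩ := ex_mod (a := t (top i)) C.hθ
    exact q4 m m1 (m2.trans hc) m3
  have hs : ((t i : ℝ) - t (top i)) / U ≤ K := by
    rw [div_le_iff₀ hU]
    have : (t i : ℝ) < t (top i) + K * U := by exact_mod_cast hlt
    linarith
  have he := Real.exp_le_exp.2 hs
  refine ⟨q1, q2, q7.trans ?_, q5.trans ?_, le_trans ?_ q6⟩
  · rw [mul_comm]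
    exact mul_le_mul_of_nonneg_right (by linarith) hH.le
  · rw [mul_comm]
    exact mul_le_mul_of_nonneg_right he hH.le
  · rw [mul_comm]
    refine mul_le_mul_of_nonneg_left (Real.exp_le_exp.2 ?_) hH.le
    linarith

end Pool.Agent.Helper57.SG
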